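import Mathlib
import Pool.Agent.H566W.Ana

/-!
# Analytic partitions of the reals into additive Borel semigroups

If `ℝ` is partitioned into nonempty additive Borel semigroups such that the induced equivalence
relation is analytic, then the number of pieces is at most three or exactly the cardinality of the
continuum. In particular, if the continuum is `ℵ₂`, then there is no such partition into `ℵ₁`
pieces.

Proof. A nonmeager piece contains an interval by a category version of Steinhaus' theorem, so it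
contains a half line, and then it contains all positive or all negative numbers. If there are two
such pieces, there are at most three pieces. Otherwise there is an open half line (or the line)
in which all pieces are meager. The equivalence relation is meager there by the theorem of
Kuratowski and Ulam, and a theorem of Mycielski gives a perfect set of inequivalent points.
-/

set_option autoImplicit false

open Set Filter Topology MeasureTheory Cardinal

namespace Pool.Agent.Results.MP_be984c_lc.AnalyticPartition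

/-- A category version of Steinhaus' theorem for Borel semigroups. -/
theorem contains_interval {A : Set ℝ} (hB : MeasurableSet A)
    (hs : ∀ x ∈ A, ∀ y ∈ A, x + y ∈ A) (hm : ¬ IsMeagre A) :
    ∃ a b : ℝ, a < b ∧ Ioo a b ⊆ A := by
  obtain ⟨U, hU, hAU⟩ := hB.baireMeasurableSet.residualEq_isOpen
  have h1 : IsMeagre (A \ U) := by
    have h : ∀ᶠ x in residual ℝ, ¬ x ∈ A \ U := by
      filter_upwards [hAU] with x hx
      rintro ⟨hxA, hxU⟩
      exact hxU ((iff_of_eq hx).1 hxA)
    exact h
  have h2 : IsMeagre (U \ A) := by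
    have h : ∀ᶠ x in residual ℝ, ¬ x ∈ U \ A := by
      filter_upwards [hAU] with x hx
      rintro ⟨hxU, hxA⟩
      exact hxA ((iff_of_eq hx).2 hxU)
    exact h
  have hUn : U.Nonempty := by
    by_contra hcon
    rw [not_nonempty_iff_eq_empty] at hcon
    subst hcon
    refine hm (h1.mono ?_)
    intro x hx
    exact ⟨hx, fun h => h⟩
  obtain ⟨u, hu⟩ := hUn
  obtain ⟨ε, hε, hball⟩ := Metric.isOpen_iff.1 hU u hu
  rw [Real.ball_eq_Ioo] at hball
  refine ⟨2 * u - ε, 2 * u + ε, by linarith, ?_⟩
  intro t ht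
  -- `W = (u - ε, u + ε) ∩ (t - (u - ε, u + ε))`
  let W : Set ℝ := Ioo (u - ε) (u + ε) ∩ (fun x => t - x) ⁻¹' Ioo (u - ε) (u + ε)
  have hcont : Continuous fun x : ℝ => t - x := continuous_const.sub continuous_id
  have hopen : IsOpenMap fun x : ℝ => t - x := (Homeomorph.subLeft t).isOpenMap
  have hWo : IsOpen W := isOpen_Ioo.inter (isOpen_Ioo.preimage hcont)
  have hWn : W.Nonempty := by
    refine ⟨t / 2, ⟨?_, ?_⟩, ?_, ?_⟩
    · linarith [ht.1]
    · linarith [ht.2]
    · show u - ε < t - t / 2
      linarith [ht.1]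
    · show t - t / 2 < u + ε
      linarith [ht.2]
  have h3 : IsMeagre ((fun x => t - x) ⁻¹' (U \ A)) := h2.preimage_of_isOpenMap hcont hopen
  have h4 : ¬ W ⊆ (U \ A) ∪ (fun x => t - x) ⁻¹' (U \ A) := fun h =>
    not_isMeagre_of_isOpen hWo hWn ((h2.union h3).mono h)
  obtain ⟨x, hxW, hx⟩ := not_subset.1 h4
  have hxA : x ∈ A := by
    by_contra h
    exact hx (Or.inl ⟨hball hxW.1, h⟩)
  have hxA' : t - x ∈ A := by
    by_contra h
    exact hx (Or.inr ⟨hball hxW.2, h⟩)
  have := hs x hxA (t - x) hxA'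
  simpa using this

theorem nsmul_mem' {A : Set ℝ} (hs : ∀ x ∈ A, ∀ y ∈ A, x + y ∈ A) {x : ℝ} (hx : x ∈ A) (n : ℕ) :
    ((n : ℝ) + 1) * x ∈ A := by
  induction n with
  | zero => simpa using hx
  | succ n ih =>
    have := hs _ ih _ hx
    convert this using 1
    push_cast
    ring

/-- a semigroup containing an interval of positive numbers contains a half line -/
theorem contains_ray {A : Set ℝ} (hs : ∀ x ∈ A, ∀ y ∈ A, x + y ∈ A) {a b : ℝ} (ha : 0 < a)
    (hab : a < b) (h : Ioo a b ⊆ A) : ∃ M : ℝ, ∀ x, M < x → x ∈ A := by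
  obtain ⟨N, hN⟩ := exists_nat_gt (a / (b - a))
  have hba : 0 < b - a := by linarith
  refine ⟨(N + 1) * b, fun x hx => ?_⟩
  -- choose `n` with `n a < x < n b`
  obtain ⟨n, hn1, hn2⟩ : ∃ n : ℕ, x / b < n + 1 ∧ (n : ℝ) + 1 < x / a := by
    have hb : 0 < b := by linarith
    have hx0 : 0 < x := by
      have : 0 ≤ ((N : ℝ) + 1) * b := by positivity
      linarith
    refine ⟨⌊x / b⌋₊, Nat.lt_floor_add_one _, ?_⟩
    have h1 : (⌊x / b⌋₊ : ℝ) ≤ x / b := Nat.floor_le (by positivity)
    have h2 : x / b + 1 < x / a := by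
      have h3 : a * b < x * (b - a) := by
        have h4 : a < N * (b - a) := by
          rw [div_lt_iff₀ hba] at hN
          exact hN
        have h5 : ((N : ℝ) + 1) * b * (b - a) < x * (b - a) :=
          mul_lt_mul_of_pos_right hx hba
        nlinarith
      rw [div_add_one hb.ne', div_lt_div_iff₀ hb ha]
      nlinarith
    linarith
  have hb : 0 < b := by linarith
  have hn0 : (0 : ℝ) < n + 1 := by positivity
  have h1 : x / (n + 1) ∈ A := by
    apply h
    constructor
    · rw [lt_div_iff₀ hn0]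
      rw [lt_div_iff₀ ha] at hn2
      linarith
    · rw [div_lt_iff₀ hn0]
      rw [div_lt_iff₀ hb] at hn1
      linarith
  have h2 := nsmul_mem' hs h1 n
  rwa [mul_div_cancel₀ _ hn0.ne'] at h2

/-- The main step: if all pieces are meager in the range of `φ`, there are continuum many
pieces. -/
theorem many_pieces {ι : Type} {A : ι → Set ℝ} (hcov : ∀ x, ∃ i, x ∈ A i)
    (hdis : ∀ i j x, x ∈ A i → x ∈ A j → i = j)
    (hE : AnalyticSet {p : ℝ × ℝ | ∃ i, p.1 ∈ A i ∧ p.2 ∈ A i})
    {φ : ℝ → ℝ} (hφ : Continuous φ) (hm : ∀ i, IsMeagre (φ ⁻¹' A i)) : 𝔠 ≤ #ι := by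
  classical
  let E' : Set (ℝ × ℝ) := {p | ∃ i, φ p.1 ∈ A i ∧ φ p.2 ∈ A i}
  have hE' : AnalyticSet E' :=
    hE.preimage (f := fun p : ℝ × ℝ => (φ p.1, φ p.2)) ((hφ.comp continuous_fst).prodMk
      (hφ.comp continuous_snd))
  obtain ⟨i0, hi0⟩ := hcov (φ 0)
  have hne : E'.Nonempty := ⟨(0, 0), i0, hi0, hi0⟩
  rw [AnalyticSet] at hE'
  obtain ⟨f, hf, hr⟩ : ∃ f : (ℕ → ℕ) → ℝ × ℝ, Continuous f ∧ range f = E' := by
    rcases hE' with h | h
    · rw [h] at hne
      exact absurd hne not_nonempty_empty
    · exact h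
  have hmea : IsMeagre E' := by
    rw [← hr]
    refine Pool.Agent.H566W.meagre_of_sections hf fun x => ?_
    rw [hr]
    obtain ⟨i, hi⟩ := hcov (φ x)
    refine (hm i).mono ?_
    rintro y ⟨j, hj1, hj2⟩
    rw [hdis i j (φ x) hi hj1]
    exact hj2
  obtain ⟨S, hSo, hSd, hSc, hSE⟩ := mem_residual_iff.1 hmea
  obtain ⟨W, hW⟩ := (hSc.insert Set.univ).exists_eq_range (insert_nonempty _ _)
  have hWS : ∀ n, W n ∈ insert Set.univ S := fun n => by
    rw [hW]
    exact mem_range_self n
  obtain ⟨h, -, hh⟩ := Pool.Agent.H565R2.FO2.mycielski W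
    (fun n => by
      rcases hWS n with h1 | h1
      · rw [h1]; exact isOpen_univ
      · exact hSo _ h1)
    (fun n => by
      rcases hWS n with h1 | h1
      · rw [h1]; exact dense_univ
      · exact hSd _ h1)
  choose idx hidx using hcov
  have hinj : Function.Injective fun b : ℕ → Bool => idx (φ (h b)) := by
    intro b b' hbb
    by_contra hne'
    have h1 : (h b, h b') ∈ E'ᶜ := by
      apply hSE
      intro t ht
      have h2 : t ∈ range W := by
        rw [← hW]
        exact mem_insert_of_mem _ ht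
      obtain ⟨n, rfl⟩ := h2
      exact hh b b' hne' n
    apply h1
    refine ⟨idx (φ (h b)), hidx _, ?_⟩
    have h3 : idx (φ (h b)) = idx (φ (h b')) := hbb
    rw [h3]
    exact hidx _
  have h1 : #(ℕ → Bool) = 𝔠 := by simp
  rw [← h1]
  exact mk_le_of_injective hinj

theorem no_meagre_preimage {A : Set ℝ} (hA : IsMeagre A) {φ : ℝ → ℝ} (hφ : Continuous φ)
    (ho : IsOpenMap φ) : IsMeagre (φ ⁻¹' A) := hA.preimage_of_isOpenMap hφ ho

theorem continuous_nexp : Continuous fun x : ℝ => -Real.exp x := Real.continuous_exp.neg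

theorem isOpenMap_exp : IsOpenMap Real.exp := Real.isOpenEmbedding_exp.isOpenMap

theorem isOpenMap_nexp : IsOpenMap fun x : ℝ => -Real.exp x := by
  have h : (fun x : ℝ => -Real.exp x) = (fun x => -x) ∘ Real.exp := rfl
  rw [h]
  exact (Homeomorph.neg ℝ).isOpenMap.comp isOpenMap_exp

/-- One piece contains all positive numbers. -/
theorem pos_case {ι : Type} {A : ι → Set ℝ} (hcov : ∀ x, ∃ i, x ∈ A i)
    (hdis : ∀ i j x, x ∈ A i → x ∈ A j → i = j) (hs : ∀ i, ∀ x ∈ A i, ∀ y ∈ A i, x + y ∈ A i)
    {i : ι} {M : ℝ} (hM : ∀ x, M < x → x ∈ A i) : ∀ x, 0 < x → x ∈ A i := by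
  intro x hx
  obtain ⟨j, hj⟩ := hcov x
  obtain ⟨n, hn⟩ := exists_nat_gt (M / x)
  have h1 := nsmul_mem' (hs j) hj n
  have h2 : M < ((n : ℝ) + 1) * x := by
    rw [div_lt_iff₀ hx] at hn
    nlinarith
  rw [hdis i j _ (hM _ h2) h1]
  exact hj

theorem neg_case {ι : Type} {A : ι → Set ℝ} (hcov : ∀ x, ∃ i, x ∈ A i)
    (hdis : ∀ i j x, x ∈ A i → x ∈ A j → i = j) (hs : ∀ i, ∀ x ∈ A i, ∀ y ∈ A i, x + y ∈ A i)
    {i : ι} {M : ℝ} (hM : ∀ x, x < M → x ∈ A i) : ∀ x, x < 0 → x ∈ A i := by
  intro x hx
  obtain ⟨j, hj⟩ := hcov x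
  obtain ⟨n, hn⟩ := exists_nat_gt (M / x)
  have h1 := nsmul_mem' (hs j) hj n
  have h2 : ((n : ℝ) + 1) * x < M := by
    rw [div_lt_iff_of_neg hx] at hn
    nlinarith
  rw [hdis i j _ (hM _ h2) h1]
  exact hj

/-- A nonmeager piece contains all positive or all negative numbers. -/
theorem half_line {ι : Type} {A : ι → Set ℝ} (hB : ∀ i, MeasurableSet (A i))
    (hcov : ∀ x, ∃ i, x ∈ A i)
    (hdis : ∀ i j x, x ∈ A i → x ∈ A j → i = j) (hs : ∀ i, ∀ x ∈ A i, ∀ y ∈ A i, x + y ∈ A i)
    {i : ι} (hm : ¬ IsMeagre (A i)) : (∀ x, 0 < x → x ∈ A i) ∨ (∀ x, x < 0 → x ∈ A i) := by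
  obtain ⟨a, b, hab, h⟩ := contains_interval (hB i) (hs i) hm
  by_cases hb : 0 < b
  · left
    have h1 : Ioo (max a (b / 2)) b ⊆ A i := fun x hx =>
      h ⟨lt_of_le_of_lt (le_max_left _ _) hx.1, hx.2⟩
    obtain ⟨M, hM⟩ := contains_ray (hs i) (lt_of_lt_of_le (by linarith) (le_max_right a (b / 2)))
      (max_lt hab (by linarith)) h1
    exact pos_case hcov hdis hs hM
  · right
    rw [not_lt] at hb
    have ha : a < 0 := by linarith
    -- reflect
    let A' : Set ℝ := {x | -x ∈ A i}
    have hs' : ∀ x ∈ A', ∀ y ∈ A', x + y ∈ A' := by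
      intro x hx y hy
      have := hs i _ hx _ hy
      show -(x + y) ∈ A i
      rwa [neg_add]
    have h1 : Ioo (max (-b) (-a / 2)) (-a) ⊆ A' := by
      intro x hx
      apply h
      constructor
      · linarith [hx.2]
      · have := lt_of_le_of_lt (le_max_left _ _) hx.1
        linarith
    obtain ⟨M, hM⟩ := contains_ray hs' (lt_of_lt_of_le (by linarith) (le_max_right (-b) (-a / 2)))
      (max_lt (by linarith) (by linarith)) h1
    refine neg_case hcov hdis hs (M := -M) fun x hx => ?_
    have h2 := hM (-x) (by linarith)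
    have h3 : -(-x) ∈ A i := h2
    rwa [neg_neg] at h3

theorem number_of_pieces {ι : Type} {A : ι → Set ℝ} (hB : ∀ i, MeasurableSet (A i))
    (hne : ∀ i, (A i).Nonempty) (hcov : ∀ x, ∃ i, x ∈ A i)
    (hdis : ∀ i j x, x ∈ A i → x ∈ A j → i = j) (hs : ∀ i, ∀ x ∈ A i, ∀ y ∈ A i, x + y ∈ A i)
    (hE : AnalyticSet {p : ℝ × ℝ | ∃ i, p.1 ∈ A i ∧ p.2 ∈ A i}) : #ι ≤ 3 ∨ #ι = 𝔠 := by
  classical
  have hle : #ι ≤ 𝔠 := by
    choose g hg using hne
    rw [← mk_real]
    refine mk_le_of_injective (f := g) fun i j hij => ?_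
    exact hdis i j (g i) (hg i) (hij ▸ hg j)
  -- few pieces
  have hfew : ∀ i j : ι, (∀ x, 0 < x → x ∈ A i) → (∀ x, x < 0 → x ∈ A j) → #ι ≤ 3 := by
    intro i j hi hj
    obtain ⟨k, hk⟩ := hcov 0
    have h1 : (Set.univ : Set ι) ⊆ ({i, j, k} : Finset ι) := by
      intro l _
      obtain ⟨x, hx⟩ := hne l
      rcases lt_trichotomy x 0 with h | h | h
      · have : l = j := hdis l j x hx (hj x h)
        simp [this]
      · subst h
        have : l = k := hdis l k 0 hx hk
        simp [this]
      · have : l = i := hdis l i x hx (hi x h)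
        simp [this]
    have h2 : #(Set.univ : Set ι) ≤ #(({i, j, k} : Finset ι) : Set ι) := mk_le_mk_of_subset h1
    rw [mk_univ] at h2
    refine h2.trans ?_
    have h3 : #((({i, j, k} : Finset ι) : Set ι)) = (({i, j, k} : Finset ι).card : Cardinal) := by
      simp
    rw [h3]
    have h4 : ({i, j, k} : Finset ι).card ≤ 3 := Finset.card_le_three
    exact_mod_cast h4
  by_cases hall : ∀ i, IsMeagre (A i)
  · right
    refine le_antisymm hle (many_pieces hcov hdis hE continuous_id fun i => ?_)
    simpa using hall i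
  push Not at hall
  obtain ⟨i, hi⟩ := hall
  rcases half_line hB hcov hdis hs hi with hp | hn
  · -- `A i` contains all positive numbers
    by_cases hneg : ∃ x ∈ A i, x < 0
    · obtain ⟨x, hx, hx0⟩ := hneg
      left
      have hall' : ∀ t, t < 0 → t ∈ A i := by
        intro t ht
        obtain ⟨n, hn⟩ := exists_nat_gt (t / x)
        have h1 := nsmul_mem' (hs i) hx n
        have h2 : 0 < t - ((n : ℝ) + 1) * x := by
          rw [div_lt_iff_of_neg hx0] at hn
          nlinarith
        have h3 := hs i _ h1 _ (hp _ h2)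
        simpa using h3
      exact hfew i i hp hall'
    · push Not at hneg
      by_cases hsec : ∃ j, j ≠ i ∧ ¬ IsMeagre (A j)
      · obtain ⟨j, hj, hjm⟩ := hsec
        left
        rcases half_line hB hcov hdis hs hjm with hp' | hn'
        · exact absurd (hdis j i 1 (hp' 1 one_pos) (hp 1 one_pos)) hj
        · exact hfew i j hp hn'
      · push Not at hsec
        right
        refine le_antisymm hle (many_pieces hcov hdis hE continuous_nexp fun j => ?_)
        by_cases hji : j = i
        · subst hji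
          have : (fun x : ℝ => -Real.exp x) ⁻¹' A j = ∅ := by
            ext x
            simp only [mem_preimage, mem_empty_iff_false, iff_false]
            intro h
            have := hneg _ h
            linarith [Real.exp_pos x]
          rw [this]
          exact IsMeagre.empty
        · exact (hsec j hji).preimage_of_isOpenMap continuous_nexp isOpenMap_nexp
  · -- `A i` contains all negative numbers
    by_cases hpos : ∃ x ∈ A i, 0 < x
    · obtain ⟨x, hx, hx0⟩ := hpos
      left
      have hall' : ∀ t, 0 < t → t ∈ A i := by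
        intro t ht
        obtain ⟨n, hn'⟩ := exists_nat_gt (t / x)
        have h1 := nsmul_mem' (hs i) hx n
        have h2 : t - ((n : ℝ) + 1) * x < 0 := by
          rw [div_lt_iff₀ hx0] at hn'
          nlinarith
        have h3 := hs i _ h1 _ (hn _ h2)
        simpa using h3
      exact hfew i i hall' hn
    · push Not at hpos
      by_cases hsec : ∃ j, j ≠ i ∧ ¬ IsMeagre (A j)
      · obtain ⟨j, hj, hjm⟩ := hsec
        left
        rcases half_line hB hcov hdis hs hjm with hp' | hn'
        · exact hfew j i hp' hn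
        · exact absurd (hdis j i (-1) (hn' (-1) (by norm_num)) (hn (-1) (by norm_num))) hj
      · push Not at hsec
        right
        refine le_antisymm hle (many_pieces hcov hdis hE Real.continuous_exp fun j => ?_)
        by_cases hji : j = i
        · subst hji
          have : Real.exp ⁻¹' A j = ∅ := by
            ext x
            simp only [mem_preimage, mem_empty_iff_false, iff_false]
            intro h
            have := hpos _ h
            linarith [Real.exp_pos x]
          rw [this]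
          exact IsMeagre.empty
        · exact (hsec j hji).preimage_of_isOpenMap Real.continuous_exp isOpenMap_exp

/-- **Theorem.** Let `ℝ` be the union of the pairwise disjoint nonempty Borel sets `A i`, `i ∈ ι`,
each closed under addition, and suppose that the induced equivalence relation is an analytic subset
of the plane. Then there are at most three or exactly continuum many pieces. In particular, if the
continuum is `ℵ₂`, the number of pieces is not `ℵ₁`. -/
theorem result (ι : Type) (A : ι → Set ℝ) (hne : ∀ i, (A i).Nonempty)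
    (hB : ∀ i, MeasurableSet (A i)) (hs : ∀ i, ∀ x ∈ A i, ∀ y ∈ A i, x + y ∈ A i)
    (hdis : Pairwise fun i j => Disjoint (A i) (A j)) (hcov : ⋃ i, A i = Set.univ)
    (hE : AnalyticSet {p : ℝ × ℝ | ∃ i, p.1 ∈ A i ∧ p.2 ∈ A i}) :
    (#ι ≤ 3 ∨ #ι = 𝔠) ∧ ((𝔠 : Cardinal.{0}) = ℵ_ 2 → #ι ≠ ℵ_ 1) := by
  have hdis' : ∀ i j x, x ∈ A i → x ∈ A j → i = j := by
    intro i j x hi hj
    by_contra hij
    exact disjoint_left.1 (hdis hij) hi hj
  have hcov' : ∀ x, ∃ i, x ∈ A i := fun x => by
    have : x ∈ ⋃ i, A i := by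
      rw [hcov]
      trivial
    exact mem_iUnion.1 this
  have hmain := number_of_pieces hB hne hcov' hdis' hs hE
  refine ⟨hmain, fun hc h1 => ?_⟩
  rcases hmain with h | h
  · rw [h1] at h
    have h2 : (ℵ₀ : Cardinal.{0}) ≤ ℵ_ 1 := aleph0_le_aleph 1
    have h3 : (3 : Cardinal.{0}) < ℵ₀ := by exact_mod_cast natCast_lt_aleph0 (n := 3)
    exact absurd (h2.trans h) (not_le.2 h3)
  · rw [h1, hc] at h
    have h2 : (ℵ_ 1 : Cardinal.{0}) < ℵ_ 2 := aleph_lt_aleph.2 (by norm_num)
    exact absurd h h2.ne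

end Pool.Agent.Results.MP_be984c_lc.AnalyticPartition
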